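import Pool.Agent.X265.Ngo.Gen

/-!
# Automorphism groups and the class `C`: characteristic subgroups
-/

set_option autoImplicit false

namespace Pool.Agent.X265.Au

open Pool.Agent.Y110.FJ Pool.Agent.X176.FJ Pool.Agent.X265.Ngo

variable {C : ∀ (G : Type) [Group G], Prop}

theorem c_triv (hC : ClosedE C) (G : Type) [Group G] (h : ∀ g : G, g = 1) : C G :=
  hC.base.of_injective G (Multiplicative ℤ) 1 (fun a b _ => (h a).trans (h b).symm) hC.base.int

theorem c_equiv (hC : ClosedE C) {G H : Type} [Group G] [Group H] (e : G ≃* H) (h : C H) : C G :=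
  hC.base.of_injective G H e.toMonoidHom e.injective h

theorem c_pi (hC : ClosedE C) {ι : Type} [Finite ι] : ∀ (A : ι → Type) [∀ i, Group (A i)],
    (∀ i, C (A i)) → C (∀ i, A i) := by
  refine Finite.induction_empty_option (P := fun ι : Type => ∀ (A : ι → Type) [∀ i, Group (A i)],
    (∀ i, C (A i)) → C (∀ i, A i)) ?_ ?_ ?_ ι
  · intro α β e ih A _ h
    refine hC.base.of_injective _ (∀ a, A (e a))
      { toFun := fun f a => f (e a)
        map_one' := rfl
        map_mul' := fun _ _ => rfl } ?_ (ih (fun a => A (e a)) fun a => h (e a))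
    intro f g hfg
    funext b
    have := congrFun hfg (e.symm b)
    have h2 : f (e (e.symm b)) = g (e (e.symm b)) := this
    rwa [e.apply_symm_apply] at h2
  · intro A _ _
    exact c_triv hC _ fun g => by funext i; exact i.elim
  · intro α _ ih A _ h
    refine hC.base.of_injective _ (A none × ∀ a, A (some a))
      { toFun := fun f => (f none, fun a => f (some a))
        map_one' := rfl
        map_mul' := fun _ _ => rfl } ?_
      (hC.base.prod _ _ (h none) (ih (fun a => A (some a)) fun a => h (some a)))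
    intro f g hfg
    funext i
    match i with
    | none => exact congrArg Prod.fst hfg
    | some a => exact congrFun (congrArg Prod.snd hfg) a

section char

variable {G : Type} [Group G] (N : Subgroup G) [hN : N.Characteristic]

theorem mem_char (φ : MulAut G) {n : G} (hn : n ∈ N) : φ n ∈ N := by
  have h := (Subgroup.characteristic_iff_map_eq.1 hN) φ
  rw [← h]
  exact ⟨n, hn, rfl⟩

/-- the restriction of automorphisms to a characteristic subgroup -/
def resA : MulAut G →* MulAut N where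
  toFun φ :=
    { toFun := fun n => ⟨φ n, mem_char N φ n.2⟩
      invFun := fun n => ⟨φ⁻¹ n, mem_char N φ⁻¹ n.2⟩
      left_inv := fun n => Subtype.ext (φ.symm_apply_apply _)
      right_inv := fun n => Subtype.ext (φ.apply_symm_apply _)
      map_mul' := fun a b => Subtype.ext (map_mul φ _ _) }
  map_one' := rfl
  map_mul' _ _ := rfl

/-- the action of automorphisms on the quotient by a characteristic subgroup -/
def quoA : MulAut G →* MulAut (G ⧸ N) where
  toFun φ := QuotientGroup.congr N N φ ((Subgroup.characteristic_iff_map_eq.1 hN) φ)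
  map_one' := by
    apply MulEquiv.ext
    intro x
    obtain ⟨g, rfl⟩ := QuotientGroup.mk_surjective x
    rfl
  map_mul' φ ψ := by
    apply MulEquiv.ext
    intro x
    obtain ⟨g, rfl⟩ := QuotientGroup.mk_surjective x
    rfl

theorem ker_char {φ : MulAut G} (h1 : resA N φ = 1) (h2 : quoA N φ = 1) :
    (∀ n ∈ N, φ n = n) ∧ ∀ g, g⁻¹ * φ g ∈ N := by
  constructor
  · intro n hn
    have := congrArg (fun f : MulAut N => ((f ⟨n, hn⟩ : N) : G)) h1
    exact this
  · intro g
    have := congrArg (fun f : MulAut (G ⧸ N) => f (QuotientGroup.mk g)) h2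
    have h3 : (QuotientGroup.mk (φ g) : G ⧸ N) = QuotientGroup.mk g := this
    exact QuotientGroup.eq.1 h3.symm

/-- an automorphism which is trivial on a normal subgroup and on the quotient: the quotients
`g⁻¹ φ(g)` are central in the normal subgroup -/
theorem stab_comm {φ : MulAut G} (h1 : ∀ n ∈ N, φ n = n) (g n : G) (hn : n ∈ N) :
    (g⁻¹ * φ g) * n = n * (g⁻¹ * φ g) := by
  have hm : g * n * g⁻¹ ∈ N := Subgroup.Normal.conj_mem inferInstance n hn g
  have h2 := h1 _ hm
  rw [map_mul, map_mul, map_inv, h1 n hn] at h2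
  have h3 : g⁻¹ * (φ g * n * (φ g)⁻¹) * φ g = g⁻¹ * (g * n * g⁻¹) * φ g := by rw [h2]
  have h4 : g⁻¹ * (φ g * n * (φ g)⁻¹) * φ g = (g⁻¹ * φ g) * n := by group
  have h5 : g⁻¹ * (g * n * g⁻¹) * φ g = n * (g⁻¹ * φ g) := by group
  rw [← h4, h3, h5]

theorem stab_abel {φ ψ : MulAut G} (h1 : ∀ n ∈ N, φ n = n) (h2 : ∀ g, g⁻¹ * φ g ∈ N)
    (k1 : ∀ n ∈ N, ψ n = n) (k2 : ∀ g, g⁻¹ * ψ g ∈ N) : φ * ψ = ψ * φ := by
  apply MulEquiv.ext
  intro g
  show φ (ψ g) = ψ (φ g)
  have a1 : φ g = g * (g⁻¹ * φ g) := by group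
  have b1 : ψ g = g * (g⁻¹ * ψ g) := by group
  calc φ (ψ g) = φ g * φ (g⁻¹ * ψ g) := by rw [← map_mul, ← b1]
    _ = g * ((g⁻¹ * φ g) * (g⁻¹ * ψ g)) := by rw [h1 _ (k2 g)]; group
    _ = g * ((g⁻¹ * ψ g) * (g⁻¹ * φ g)) := by rw [stab_comm N h1 g _ (k2 g)]
    _ = ψ g * ψ (g⁻¹ * φ g) := by rw [k1 _ (h2 g)]; group
    _ = ψ (φ g) := by rw [← map_mul, ← a1]

/-- **automorphism groups and characteristic subgroups** -/
theorem c_char (hC : ClosedE C)
    (hab : ∀ (H : Type) [Group H] (A : Subgroup H) [A.Normal], (∀ a ∈ A, ∀ b ∈ A, a * b = b * a) →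
      IsCyclic (H ⧸ A) → C H) (h1 : C (MulAut N)) (h2 : C (MulAut (G ⧸ N))) : C (MulAut G) := by
  refine c_abker hC hab ((resA N).prod (quoA N)) (hC.base.prod _ _ h1 h2) ?_
  intro φ ψ hφ hψ
  obtain ⟨a1, a2⟩ := ker_char N (congrArg Prod.fst hφ) (congrArg Prod.snd hφ)
  obtain ⟨b1, b2⟩ := ker_char N (congrArg Prod.fst hψ) (congrArg Prod.snd hψ)
  exact stab_abel N a1 a2 b1 b2

end char

/-- **extensions with kernels whose automorphism group is in `C`** -/
theorem c_kern (hC : ClosedE C)
    (hab : ∀ (H : Type) [Group H] (A : Subgroup H) [A.Normal], (∀ a ∈ A, ∀ b ∈ A, a * b = b * a) →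
      IsCyclic (H ⧸ A) → C H) {E : Type} [Group E] (N : Subgroup E) [N.Normal]
    (h1 : C (MulAut N)) (h2 : C (E ⧸ N)) : C E := by
  refine c_abker hC hab ((QuotientGroup.mk' N).prod (MulAut.conjNormal (H := N)))
    (hC.base.prod _ _ h2 h1) ?_
  intro a b ha hb
  have ha1 : a ∈ N := by
    have := congrArg Prod.fst ha
    exact (QuotientGroup.eq_one_iff a).1 this
  have hb2 : ∀ n : N, b * n * b⁻¹ = n := by
    intro n
    have := congrArg (fun f : MulAut N => ((f n : N) : E)) (congrArg Prod.snd hb)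
    exact this
  have h3 := hb2 ⟨a, ha1⟩
  have h4 : b * a = a * b := by
    have h5 : b * a * b⁻¹ = a := h3
    calc b * a = (b * a * b⁻¹) * b := by group
      _ = a * b := by rw [h5]
  exact h4.symm

end Pool.Agent.X265.Au
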