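import Pool.Agent.X265.Au.Fin

/-!
# Automorphism groups and centralizers
-/

set_option autoImplicit false

namespace Pool.Agent.X265.Au

open Pool.Agent.Y110.FJ Pool.Agent.X176.FJ Pool.Agent.X265.Ngo

variable {C : ∀ (G : Type) [Group G], Prop}

section cent

variable {G : Type} [Group G] (N : Subgroup G)

theorem conjN [N.Normal] {a : G} (h : MulAut.conjNormal (H := N) a = 1) :
    a ∈ Subgroup.centralizer (N : Set G) := by
  rw [Subgroup.mem_centralizer_iff]
  intro n hn
  have h1 := congrArg (fun f : MulAut N => ((f ⟨n, hn⟩ : N) : G)) h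
  have h2 : a * n * a⁻¹ = n := h1
  calc n * a = (a * n * a⁻¹) * a := by rw [h2]
    _ = a * n := by group

/-- normal subgroups which contain their centralizer -/
theorem c_ext1 (hC : ClosedE C)
    (hab : ∀ (H : Type) [Group H] (A : Subgroup H) [A.Normal], (∀ a ∈ A, ∀ b ∈ A, a * b = b * a) →
      IsCyclic (H ⧸ A) → C H) [N.Normal] (h1 : C (MulAut N))
    (h2 : Subgroup.centralizer (N : Set G) ≤ N) : C G := by
  refine c_abker hC hab (MulAut.conjNormal (H := N)) h1 ?_
  intro a b ha hb
  exact Subgroup.mem_centralizer_iff.1 (conjN N hb) a (h2 (conjN N ha))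

/-- normal subgroups and their centralizers -/
theorem c_ext2 (hC : ClosedE C)
    (hab : ∀ (H : Type) [Group H] (A : Subgroup H) [A.Normal], (∀ a ∈ A, ∀ b ∈ A, a * b = b * a) →
      IsCyclic (H ⧸ A) → C H) [N.Normal] (h1 : C (MulAut N))
    (h2 : C (MulAut ↥(Subgroup.centralizer (N : Set G)))) : C G := by
  refine c_abker hC hab ((MulAut.conjNormal (H := N)).prod
    (MulAut.conjNormal (H := Subgroup.centralizer (N : Set G)))) (hC.base.prod _ _ h1 h2) ?_
  intro a b ha hb
  have ha1 := conjN N (congrArg Prod.fst ha)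
  have hb2 := conjN (Subgroup.centralizer (N : Set G)) (congrArg Prod.snd hb)
  exact Subgroup.mem_centralizer_iff.1 hb2 a ha1

theorem stab_cent [N.Normal] {φ : MulAut G} (h : ∀ n ∈ N, φ n = n) (g : G) :
    g⁻¹ * φ g ∈ Subgroup.centralizer (N : Set G) := by
  rw [Subgroup.mem_centralizer_iff]
  intro n hn
  exact (stab_comm_n N h g n hn).symm

/-- characteristic subgroups which contain their centralizer -/
theorem c_cent1 (hC : ClosedE C)
    (hab : ∀ (H : Type) [Group H] (A : Subgroup H) [A.Normal], (∀ a ∈ A, ∀ b ∈ A, a * b = b * a) →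
      IsCyclic (H ⧸ A) → C H) [N.Characteristic] (h1 : C (MulAut N))
    (h2 : Subgroup.centralizer (N : Set G) ≤ N) : C (MulAut G) := by
  refine c_abker hC hab (resA N) h1 ?_
  have key : ∀ φ : MulAut G, resA N φ = 1 → ∀ n ∈ N, φ n = n := by
    intro φ hφ n hn
    exact congrArg (fun f : MulAut N => ((f ⟨n, hn⟩ : N) : G)) hφ
  intro φ ψ hφ hψ
  exact stab_abel_n N (key φ hφ) (fun g => h2 (stab_cent N (key φ hφ) g)) (key ψ hψ)
    (fun g => h2 (stab_cent N (key ψ hψ) g))

/-- characteristic subgroups and their centralizers -/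
theorem c_cent2 (hC : ClosedE C)
    (hab : ∀ (H : Type) [Group H] (A : Subgroup H) [A.Normal], (∀ a ∈ A, ∀ b ∈ A, a * b = b * a) →
      IsCyclic (H ⧸ A) → C H) [N.Characteristic] (h1 : C (MulAut N))
    (h2 : C (MulAut ↥(Subgroup.centralizer (N : Set G)))) : C (MulAut G) := by
  refine c_abker hC hab ((resA N).prod (resA (Subgroup.centralizer (N : Set G))))
    (hC.base.prod _ _ h1 h2) ?_
  have key : ∀ (M : Subgroup G) [M.Characteristic] (φ : MulAut G), resA M φ = 1 →
      ∀ n ∈ M, φ n = n := by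
    intro M _ φ hφ n hn
    exact congrArg (fun f : MulAut M => ((f ⟨n, hn⟩ : M) : G)) hφ
  intro φ ψ hφ hψ
  have a1 := key N φ (congrArg Prod.fst hφ)
  have a2 := key (Subgroup.centralizer (N : Set G)) φ (congrArg Prod.snd hφ)
  have b1 := key N ψ (congrArg Prod.fst hψ)
  have b2 := key (Subgroup.centralizer (N : Set G)) ψ (congrArg Prod.snd hψ)
  exact stab_abel_n (Subgroup.centralizer (N : Set G)) a2 (fun g => stab_cent N a1 g) b2
    (fun g => stab_cent N b1 g)

end cent

end Pool.Agent.X265.Au
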