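import Pool.Agent.X265.Au.Base

/-!
# Automorphism groups of direct products with an abelian factor
-/

set_option autoImplicit false

namespace Pool.Agent.X265.Au

open Pool.Agent.Y110.FJ Pool.Agent.X176.FJ Pool.Agent.X265.Ngo

variable {C : ∀ (G : Type) [Group G], Prop}

/-- the inner automorphisms -/
abbrev Inn (G : Type) [Group G] : Subgroup (MulAut G) := (MulAut.conj : G →* MulAut G).range

theorem conj_eq {G : Type} [Group G] (φ : MulAut G) (g : G) :
    φ * MulAut.conj g * φ⁻¹ = MulAut.conj (φ g) := by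
  apply MulEquiv.ext
  intro x
  show φ (g * φ.symm x * g⁻¹) = φ g * x * (φ g)⁻¹
  rw [map_mul, map_mul, map_inv]
  have : φ (φ.symm x) = x := φ.apply_symm_apply x
  rw [this]

instance innNormal (G : Type) [Group G] : (Inn G).Normal := by
  constructor
  rintro _ ⟨g, rfl⟩ φ
  exact ⟨φ g, (conj_eq φ g).symm⟩

/-- the group of the outer automorphisms -/
abbrev OutA (G : Type) [Group G] : Type := MulAut G ⧸ Inn G

section prodA

variable {G A : Type} [Group G] [CommGroup A]

theorem center_fst (hZ : Subgroup.center G = ⊥) {z : G × A} (hz : z ∈ Subgroup.center (G × A)) :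
    z.1 = 1 := by
  rw [Subgroup.mem_center_iff] at hz
  have h : z.1 ∈ Subgroup.center G := by
    rw [Subgroup.mem_center_iff]
    intro g
    exact congrArg Prod.fst (hz (g, 1))
  rw [hZ] at h
  exact h

theorem mem_center_of (a : A) : ((1, a) : G × A) ∈ Subgroup.center (G × A) := by
  rw [Subgroup.mem_center_iff]
  rintro ⟨g, b⟩
  apply Prod.ext
  · show g * 1 = 1 * g
    rw [mul_one, one_mul]
  · exact mul_comm b a

/-- the centre -/
def e1 (hZ : Subgroup.center G = ⊥) : Subgroup.center (G × A) ≃* A where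
  toFun z := z.1.2
  invFun a := ⟨(1, a), mem_center_of a⟩
  left_inv z := Subtype.ext (Prod.ext (center_fst hZ z.2).symm rfl)
  right_inv _ := rfl
  map_mul' _ _ := rfl

theorem center_eq (hZ : Subgroup.center G = ⊥) :
    Subgroup.center (G × A) = (MonoidHom.fst G A).ker := by
  apply le_antisymm
  · intro z hz
    exact center_fst hZ hz
  · rintro ⟨g, a⟩ hz
    have hg : g = 1 := hz
    subst hg
    exact mem_center_of a

/-- the quotient by the centre -/
noncomputable def e2 (hZ : Subgroup.center G = ⊥) : (G × A) ⧸ Subgroup.center (G × A) ≃* G :=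
  (QuotientGroup.quotientMulEquivOfEq (center_eq hZ)).trans
    (QuotientGroup.quotientKerEquivOfSurjective (MonoidHom.fst G A) Prod.fst_surjective)

theorem e2_mk (hZ : Subgroup.center G = ⊥) (z : G × A) : e2 hZ (QuotientGroup.mk z) = z.1 := rfl

/-- the components of an automorphism -/
noncomputable def cG (hZ : Subgroup.center G = ⊥) : MulAut (G × A) →* MulAut G :=
  (MulAut.congr (e2 (A := A) hZ)).toMonoidHom.comp (quoA (Subgroup.center (G × A)))

noncomputable def cA (hZ : Subgroup.center G = ⊥) : MulAut (G × A) →* MulAut A :=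
  (MulAut.congr (e1 hZ)).toMonoidHom.comp (resA (Subgroup.center (G × A)))

theorem cG_apply (hZ : Subgroup.center G = ⊥) (φ : MulAut (G × A)) (z : G × A) :
    cG hZ φ z.1 = (φ z).1 := by
  have h : (e2 hZ).symm z.1 = (QuotientGroup.mk z : (G × A) ⧸ Subgroup.center (G × A)) := by
    rw [MulEquiv.symm_apply_eq, e2_mk]
  show e2 hZ (quoA (Subgroup.center (G × A)) φ ((e2 hZ).symm z.1)) = _
  rw [h]
  rfl

theorem cA_apply (hZ : Subgroup.center G = ⊥) (φ : MulAut (G × A)) (a : A) :
    φ (1, a) = (1, cA hZ φ a) := by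
  apply Prod.ext
  · exact center_fst hZ (mem_char (Subgroup.center (G × A)) φ (mem_center_of a))
  · rfl

theorem comps (hZ : Subgroup.center G = ⊥) {φ : MulAut (G × A)} (h1 : cG hZ φ = 1)
    (h2 : cA hZ φ = 1) : (∀ n ∈ Subgroup.center (G × A), φ n = n) ∧
      ∀ g, g⁻¹ * φ g ∈ Subgroup.center (G × A) := by
  constructor
  · rintro ⟨g, a⟩ hn
    have hg : g = 1 := center_fst hZ hn
    subst hg
    rw [cA_apply hZ, h2]
    rfl
  · intro z
    rw [center_eq hZ]
    show z.1⁻¹ * (φ z).1 = 1
    rw [← cG_apply hZ, h1]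
    exact inv_mul_cancel _

/-- automorphisms of the first factor -/
def upG : MulAut G →* MulAut (G × A) where
  toFun φ := MulEquiv.prodCongr φ (MulEquiv.refl A)
  map_one' := rfl
  map_mul' _ _ := rfl

def upA : MulAut A →* MulAut (G × A) where
  toFun φ := MulEquiv.prodCongr (MulEquiv.refl G) φ
  map_one' := rfl
  map_mul' _ _ := rfl

/-- **automorphism groups of direct products with an abelian group** -/
theorem c_autA (hC : ClosedE C)
    (hab : ∀ (H : Type) [Group H] (A : Subgroup H) [A.Normal], (∀ a ∈ A, ∀ b ∈ A, a * b = b * a) →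
      IsCyclic (H ⧸ A) → C H) (hZ : Subgroup.center G = ⊥) :
    C (MulAut (G × A)) ↔ C (MulAut G) ∧ C (MulAut A) := by
  constructor
  · intro h
    refine ⟨hC.base.of_injective _ _ (upG (A := A)) ?_ h, hC.base.of_injective _ _ (upA (G := G)) ?_ h⟩
    · intro φ ψ hφ
      apply MulEquiv.ext
      intro g
      exact congrArg (fun f : MulAut (G × A) => (f (g, 1)).1) hφ
    · intro φ ψ hφ
      apply MulEquiv.ext
      intro a
      exact congrArg (fun f : MulAut (G × A) => (f (1, a)).2) hφ
  · rintro ⟨h1, h2⟩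
    refine c_abker hC hab ((cG hZ).prod (cA hZ)) (hC.base.prod _ _ h1 h2) ?_
    intro φ ψ hφ hψ
    obtain ⟨a1, a2⟩ := comps hZ (congrArg Prod.fst hφ) (congrArg Prod.snd hφ)
    obtain ⟨b1, b2⟩ := comps hZ (congrArg Prod.fst hψ) (congrArg Prod.snd hψ)
    exact stab_abel _ a1 a2 b1 b2

theorem cG_conj (hZ : Subgroup.center G = ⊥) (z : G × A) : cG hZ (MulAut.conj z) = MulAut.conj z.1 := by
  apply MulEquiv.ext
  intro g
  exact cG_apply hZ (MulAut.conj z) (g, 1)

theorem cA_conj (hZ : Subgroup.center G = ⊥) (z : G × A) : cA hZ (MulAut.conj z) = 1 := by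
  apply MulEquiv.ext
  intro a
  have h := cA_apply hZ (MulAut.conj z) a
  have h2 := congrArg Prod.snd h
  have h3 : z.2 * a * z.2⁻¹ = cA hZ (MulAut.conj z) a := h2
  rw [← h3]
  show z.2 * a * z.2⁻¹ = a
  rw [mul_comm z.2 a, mul_inv_cancel_right]

/-- the homomorphism on outer automorphisms -/
noncomputable def fO (hZ : Subgroup.center G = ⊥) : OutA (G × A) →* OutA G × MulAut A :=
  QuotientGroup.lift (Inn (G × A)) (((QuotientGroup.mk' (Inn G)).comp (cG hZ)).prod (cA hZ)) (by
    rintro _ ⟨z, rfl⟩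
    apply Prod.ext
    · show QuotientGroup.mk' (Inn G) (cG hZ (MulAut.conj z)) = 1
      rw [cG_conj]
      exact (QuotientGroup.eq_one_iff _).2 ⟨z.1, rfl⟩
    · exact cA_conj hZ z)

/-- **outer automorphism groups of direct products with an abelian group** -/
theorem c_outA (hC : ClosedE C)
    (hab : ∀ (H : Type) [Group H] (A : Subgroup H) [A.Normal], (∀ a ∈ A, ∀ b ∈ A, a * b = b * a) →
      IsCyclic (H ⧸ A) → C H) (hZ : Subgroup.center G = ⊥) :
    C (OutA (G × A)) ↔ C (OutA G) ∧ C (MulAut A) := by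
  constructor
  · intro h
    constructor
    · refine hC.base.of_injective _ _ (QuotientGroup.map (Inn G) (Inn (G × A)) (upG (A := A)) ?_) ?_ h
      · rintro _ ⟨g, rfl⟩
        refine ⟨(g, 1), ?_⟩
        apply MulEquiv.ext
        rintro ⟨x, a⟩
        apply Prod.ext
        · rfl
        · show 1 * a * 1⁻¹ = a
          rw [one_mul, inv_one, mul_one]
      · rw [injective_iff_map_eq_one]
        intro q hq
        obtain ⟨φ, rfl⟩ := QuotientGroup.mk_surjective q
        have h1 : upG (A := A) φ ∈ Inn (G × A) := (QuotientGroup.eq_one_iff _).1 hq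
        obtain ⟨z, hz⟩ := h1
        apply (QuotientGroup.eq_one_iff _).2
        refine ⟨z.1, ?_⟩
        apply MulEquiv.ext
        intro g
        exact congrArg (fun f : MulAut (G × A) => (f (g, 1)).1) hz
    · refine hC.base.of_injective _ _ ((QuotientGroup.mk' (Inn (G × A))).comp (upA (G := G))) ?_ h
      rw [injective_iff_map_eq_one]
      intro φ hφ
      obtain ⟨z, hz⟩ := (QuotientGroup.eq_one_iff _).1 hφ
      apply MulEquiv.ext
      intro a
      have h1 := congrArg (fun f : MulAut (G × A) => (f (1, a)).2) hz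
      have h2 : z.2 * a * z.2⁻¹ = φ a := h1
      rw [← h2]
      show z.2 * a * z.2⁻¹ = a
      rw [mul_comm z.2 a, mul_inv_cancel_right]
  · rintro ⟨h1, h2⟩
    refine c_abker hC hab (fO hZ) (hC.base.prod _ _ h1 h2) ?_
    have key : ∀ q : OutA (G × A), fO hZ q = 1 → ∃ φ : MulAut (G × A), q = QuotientGroup.mk φ ∧
        (∀ n ∈ Subgroup.center (G × A), φ n = n) ∧ ∀ g, g⁻¹ * φ g ∈ Subgroup.center (G × A) := by
      intro q hq
      obtain ⟨φ, rfl⟩ := QuotientGroup.mk_surjective q
      have k1 : QuotientGroup.mk' (Inn G) (cG hZ φ) = 1 := congrArg Prod.fst hq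
      have k2 : cA hZ φ = 1 := congrArg Prod.snd hq
      obtain ⟨g, hg⟩ := (QuotientGroup.eq_one_iff _).1 k1
      refine ⟨φ * MulAut.conj (g⁻¹, 1), ?_, ?_⟩
      · apply QuotientGroup.eq.2
        refine ⟨(g⁻¹, 1), ?_⟩
        rw [inv_mul_cancel_left]
      · apply comps hZ
        · rw [map_mul, cG_conj, ← hg, ← map_mul]
          show MulAut.conj (g * g⁻¹) = 1
          rw [mul_inv_cancel, map_one]
        · rw [map_mul, cA_conj, k2, mul_one]
    intro a b ha hb
    obtain ⟨φ, rfl, a1, a2⟩ := key a ha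
    obtain ⟨ψ, rfl, b1, b2⟩ := key b hb
    rw [← QuotientGroup.mk_mul, ← QuotientGroup.mk_mul, stab_abel _ a1 a2 b1 b2]

end prodA

end Pool.Agent.X265.Au
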