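import Pool.Agent.X265.Au.Prod

/-!
# Automorphism groups of finitely generated groups and subgroups of finite index
-/

set_option autoImplicit false

namespace Pool.Agent.X265.Au

open Pool.Agent.Y110.FJ Pool.Agent.X176.FJ Pool.Agent.X265.Ngo

variable {C : ∀ (G : Type) [Group G], Prop}

theorem finite_hom {G P : Type} [Group G] [Group P] [Finite P] [hG : Group.FG G] :
    Finite (G →* P) := by
  obtain ⟨S, hS⟩ := hG.out
  refine Finite.of_injective (fun (ρ : G →* P) (s : S) => ρ s) ?_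
  intro ρ ρ' h
  refine MonoidHom.eq_of_eqOn_dense hS ?_
  intro s hs
  exact congrFun h ⟨s, hs⟩

theorem stab_comm_n {G : Type} [Group G] (N : Subgroup G) [N.Normal] {φ : MulAut G}
    (h1 : ∀ n ∈ N, φ n = n) (g n : G) (hn : n ∈ N) :
    (g⁻¹ * φ g) * n = n * (g⁻¹ * φ g) := by
  have hm : g * n * g⁻¹ ∈ N := Subgroup.Normal.conj_mem inferInstance n hn g
  have h2 := h1 _ hm
  rw [map_mul, map_mul, map_inv, h1 n hn] at h2
  have h3 : g⁻¹ * (φ g * n * (φ g)⁻¹) * φ g = g⁻¹ * (g * n * g⁻¹) * φ g := by rw [h2]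
  have h4 : g⁻¹ * (φ g * n * (φ g)⁻¹) * φ g = (g⁻¹ * φ g) * n := by group
  have h5 : g⁻¹ * (g * n * g⁻¹) * φ g = n * (g⁻¹ * φ g) := by group
  rw [← h4, h3, h5]

theorem stab_abel_n {G : Type} [Group G] (N : Subgroup G) [N.Normal] {φ ψ : MulAut G}
    (h1 : ∀ n ∈ N, φ n = n) (h2 : ∀ g, g⁻¹ * φ g ∈ N)
    (k1 : ∀ n ∈ N, ψ n = n) (k2 : ∀ g, g⁻¹ * ψ g ∈ N) : φ * ψ = ψ * φ := by
  apply MulEquiv.ext
  intro g
  show φ (ψ g) = ψ (φ g)
  have a1 : φ g = g * (g⁻¹ * φ g) := by group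
  have b1 : ψ g = g * (g⁻¹ * ψ g) := by group
  calc φ (ψ g) = φ g * φ (g⁻¹ * ψ g) := by rw [← map_mul, ← b1]
    _ = g * ((g⁻¹ * φ g) * (g⁻¹ * ψ g)) := by rw [h1 _ (k2 g)]; group
    _ = g * ((g⁻¹ * ψ g) * (g⁻¹ * φ g)) := by rw [stab_comm_n N h1 g _ (k2 g)]
    _ = ψ g * ψ (g⁻¹ * φ g) := by rw [k1 _ (h2 g)]; group
    _ = ψ (φ g) := by rw [← map_mul, ← a1]

section fi

variable {G : Type} [Group G]

/-- the action of the automorphisms on the set of homomorphisms to a group -/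
def actH (P : Type) [Group P] : MulAut G →* Equiv.Perm (G →* P) where
  toFun φ :=
    { toFun := fun ρ => ρ.comp (φ⁻¹ : MulAut G).toMonoidHom
      invFun := fun ρ => ρ.comp (φ : MulAut G).toMonoidHom
      left_inv := fun ρ => by
        apply MonoidHom.ext
        intro g
        show ρ (φ⁻¹ (φ g)) = ρ g
        exact congrArg ρ (φ.symm_apply_apply g)
      right_inv := fun ρ => by
        apply MonoidHom.ext
        intro g
        show ρ (φ (φ⁻¹ g)) = ρ g
        exact congrArg ρ (φ.apply_symm_apply g) }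
  map_one' := rfl
  map_mul' φ ψ := by
    apply Equiv.ext
    intro ρ
    apply MonoidHom.ext
    intro g
    show ρ ((φ * ψ)⁻¹ g) = ρ (ψ⁻¹ (φ⁻¹ g))
    rw [mul_inv_rev]
    rfl

theorem actH_ker {P : Type} [Group P] {φ : MulAut G} (h : φ ∈ (actH (G := G) P).ker)
    (ρ : G →* P) (g : G) : ρ (φ g) = ρ g := by
  have h1 : actH P φ = 1 := h
  have h2 : actH P φ⁻¹ = 1 := by rw [map_inv, h1, inv_one]
  have h3 := congrArg (fun e : Equiv.Perm (G →* P) => (e ρ) g) h2
  have h4 : ρ ((φ⁻¹)⁻¹ g) = ρ g := h3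
  rwa [inv_inv] at h4

variable (H : Subgroup G)

/-- the permutation representation on the cosets -/
def cosetRep : G →* Equiv.Perm (G ⧸ H) := MulAction.toPermHom G (G ⧸ H)

theorem coset_ker {g : G} (h : cosetRep H g = 1) : g ∈ H := by
  have h1 := congrArg (fun e : Equiv.Perm (G ⧸ H) => e (QuotientGroup.mk 1)) h
  have h2 : (QuotientGroup.mk (g * 1) : G ⧸ H) = QuotientGroup.mk 1 := h1
  rw [mul_one] at h2
  have h3 := QuotientGroup.eq.1 h2.symm
  rwa [inv_one, one_mul] at h3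

/-- automorphisms which preserve all homomorphisms to the group of the permutations of the cosets -/
abbrev Pres : Subgroup (MulAut G) := (actH (G := G) (Equiv.Perm (G ⧸ H))).ker

theorem pres_ker {φ : MulAut G} (h : φ ∈ Pres H) (g : G) : g⁻¹ * φ g ∈ (cosetRep H).ker := by
  show cosetRep H (g⁻¹ * φ g) = 1
  rw [map_mul, actH_ker h, map_inv, inv_mul_cancel]

theorem pres_mem {φ : MulAut G} (h : φ ∈ Pres H) {g : G} (hg : g ∈ H) : φ g ∈ H := by
  have h1 : g⁻¹ * φ g ∈ H := coset_ker H (pres_ker H h g)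
  have h2 := H.mul_mem hg h1
  rwa [mul_inv_cancel_left] at h2

/-- the restriction to the subgroup -/
def resH : ↥(Pres H) →* MulAut H where
  toFun φ :=
    { toFun := fun n => ⟨φ.1 n, pres_mem H φ.2 n.2⟩
      invFun := fun n => ⟨(φ⁻¹).1 n, pres_mem H (φ⁻¹).2 n.2⟩
      left_inv := fun n => Subtype.ext (φ.1.symm_apply_apply _)
      right_inv := fun n => Subtype.ext (φ.1.apply_symm_apply _)
      map_mul' := fun a b => Subtype.ext (map_mul φ.1 _ _) }
  map_one' := rfl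
  map_mul' _ _ := rfl

/-- **automorphism groups and subgroups of finite index** -/
theorem c_fin (hC : ClosedE C)
    (hab : ∀ (H : Type) [Group H] (A : Subgroup H) [A.Normal], (∀ a ∈ A, ∀ b ∈ A, a * b = b * a) →
      IsCyclic (H ⧸ A) → C H) [Group.FG G] [H.FiniteIndex] (h : C (MulAut H)) : C (MulAut G) := by
  haveI : Finite (G ⧸ H) := inferInstance
  haveI : Finite (Equiv.Perm (G ⧸ H)) := inferInstance
  haveI : Finite (G →* Equiv.Perm (G ⧸ H)) := finite_hom
  haveI : Finite (Equiv.Perm (G →* Equiv.Perm (G ⧸ H))) := inferInstance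
  refine hC.base.finiteIndex _ (Pres H) (Subgroup.finiteIndex_ker _) ?_
  refine c_abker hC hab (resH H) h ?_
  intro φ ψ hφ hψ
  have key : ∀ χ : ↥(Pres H), resH H χ = 1 → ∀ n ∈ (cosetRep H).ker, χ.1 n = n := by
    intro χ hχ n hn
    have h1 := congrArg (fun f : MulAut H => ((f ⟨n, coset_ker H hn⟩ : H) : G)) hχ
    exact h1
  apply Subtype.ext
  exact stab_abel_n (cosetRep H).ker (key φ hφ) (pres_ker H φ.2) (key ψ hψ) (pres_ker H ψ.2)

end fi

/-- the centre of a direct product of centreless groups -/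
theorem center_pi {ι : Type} [DecidableEq ι] {G : ι → Type} [∀ i, Group (G i)]
    (hZ : ∀ i, Subgroup.center (G i) = ⊥) : Subgroup.center (∀ i, G i) = ⊥ := by
  rw [eq_bot_iff]
  intro z hz
  rw [Subgroup.mem_center_iff] at hz
  show z = 1
  funext i
  have h : z i ∈ Subgroup.center (G i) := by
    rw [Subgroup.mem_center_iff]
    intro g
    have := congrFun (hz (Pi.mulSingle i g)) i
    rw [Pi.mul_apply, Pi.mul_apply, Pi.mulSingle_eq_same] at this
    exact this
  rw [hZ i] at h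
  exact h

/-- **automorphism groups of direct products** -/
theorem c_autAll (hC : ClosedE C)
    (hab : ∀ (H : Type) [Group H] (A : Subgroup H) [A.Normal], (∀ a ∈ A, ∀ b ∈ A, a * b = b * a) →
      IsCyclic (H ⧸ A) → C H) {ι : Type} [Finite ι] {G : ι → Type} [∀ i, Group (G i)]
    (hZ : ∀ i, Subgroup.center (G i) = ⊥) (hI : ∀ i, DirIndec (G i)) (A : Type) [CommGroup A] :
    (C (MulAut ((∀ i, G i) × A)) ↔ (∀ i, C (MulAut (G i))) ∧ C (MulAut A)) ∧
      (C (OutA ((∀ i, G i) × A)) ↔ (∀ i, C (OutA (G i))) ∧ C (MulAut A)) := by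
  classical
  rw [c_autA hC hab (center_pi hZ), c_outA hC hab (center_pi hZ), c_autP hZ hI hC, c_outP hZ hI hC]
  exact ⟨Iff.rfl, Iff.rfl⟩

end Pool.Agent.X265.Au
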