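import Pool.Agent.X265.Au.Dir

/-!
# Automorphism groups of direct products of centreless directly indecomposable groups
-/

set_option autoImplicit false

namespace Pool.Agent.X265.Au

open Pool.Agent.Y110.FJ Pool.Agent.X176.FJ Pool.Agent.X265.Ngo

variable {C : ∀ (G : Type) [Group G], Prop}

/-- directly indecomposable groups: not trivial and not generated by two non-trivial subgroups
which intersect trivially and commute elementwise -/
def DirIndec (G : Type) [Group G] : Prop :=
  Nontrivial G ∧ ∀ A B : Subgroup G, (∀ a ∈ A, ∀ b ∈ B, a * b = b * a) → A ⊔ B = ⊤ →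
    A ⊓ B = ⊥ → A = ⊥ ∨ B = ⊥

theorem inf_bot {G : Type} [Group G] (hZ : Subgroup.center G = ⊥) (A B : Subgroup G)
    (h : ∀ a ∈ A, ∀ b ∈ B, a * b = b * a) (hg : A ⊔ B = ⊤) : A ⊓ B = ⊥ := by
  rw [eq_bot_iff, ← hZ]
  rintro x ⟨hxA, hxB⟩
  rw [Subgroup.mem_center_iff]
  intro g
  have hle : A ⊔ B ≤ Subgroup.centralizer {x} := by
    rw [sup_le_iff]
    constructor
    · intro a ha
      rw [Subgroup.mem_centralizer_singleton_iff]
      exact (h a ha x hxB)
    · intro b hb
      rw [Subgroup.mem_centralizer_singleton_iff]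
      exact (h x hxA b hb).symm
  have hg2 : g ∈ Subgroup.centralizer {x} := hle (by rw [hg]; exact Subgroup.mem_top g)
  rw [Subgroup.mem_centralizer_singleton_iff] at hg2
  exact hg2

section prod

variable {ι : Type} [Finite ι] [DecidableEq ι] {G : ι → Type} [∀ i, Group (G i)]

/-- the component `j` of `φ z` depends only on the component `τ j` of `z` -/
def Dep (φ : MulAut (∀ i, G i)) (τ : ι → ι) : Prop :=
  ∀ j, ∀ z : ∀ i, G i, z (τ j) = 1 → φ z j = 1

theorem dep_one : Dep (1 : MulAut (∀ i, G i)) id := fun _ _ h => h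

theorem dep_mul {φ ψ : MulAut (∀ i, G i)} {τ σ : ι → ι} (h1 : Dep φ τ) (h2 : Dep ψ σ) :
    Dep (φ * ψ) (σ ∘ τ) := fun j z hz => h1 j (ψ z) (h2 (τ j) z hz)

theorem split (i : ι) (z : ∀ i, G i) :
    ∃ z' : ∀ i, G i, z' i = 1 ∧ z = Pi.mulSingle i (z i) * z' := by
  refine ⟨Function.update z i 1, Function.update_self _ _ _, ?_⟩
  funext k
  by_cases hk : k = i
  · subst hk
    simp
  · simp [hk]

theorem dep_apply {φ : MulAut (∀ i, G i)} {τ : ι → ι} (h : Dep φ τ) (j : ι) (z : ∀ i, G i) :
    φ z j = φ (Pi.mulSingle (τ j) (z (τ j))) j := by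
  obtain ⟨z', h1, h2⟩ := split (τ j) z
  have h3 : φ z = φ (Pi.mulSingle (τ j) (z (τ j))) * φ z' := by
    rw [← map_mul, ← h2]
  rw [h3, Pi.mul_apply, h j z' h1, mul_one]

theorem exists_mov (φ : MulAut (∀ i, G i)) (j : ι) [Nontrivial (G j)] :
    ∃ i, ∃ x : G i, φ (Pi.mulSingle i x) j ≠ 1 := by
  by_contra hcon
  push_neg at hcon
  obtain ⟨y, hy⟩ := _root_.exists_ne (1 : G j)
  let H : Subgroup (∀ i, G i) := ((Pi.evalMonoidHom G j).comp φ.toMonoidHom).ker
  have hz : φ.symm (Pi.mulSingle j y) ∈ H := by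
    apply Subgroup.pi_mem_of_mulSingle_mem
    intro i
    exact hcon i _
  have h2 : φ (φ.symm (Pi.mulSingle j y)) j = 1 := hz
  rw [φ.apply_symm_apply, Pi.mulSingle_eq_same] at h2
  exact hy h2

theorem dep_exists (hZ : ∀ i, Subgroup.center (G i) = ⊥) (hI : ∀ i, DirIndec (G i))
    (φ : MulAut (∀ i, G i)) : ∃ τ : ι → ι, Dep φ τ := by
  have key : ∀ j, ∃ i, ∀ z : ∀ i, G i, z i = 1 → φ z j = 1 := by
    intro j
    haveI := (hI j).1
    obtain ⟨i, x, hx⟩ := exists_mov φ j
    refine ⟨i, ?_⟩
    let f : (∀ i, G i) →* G j := (Pi.evalMonoidHom G j).comp φ.toMonoidHom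
    have hf : Function.Surjective f := by
      intro y
      refine ⟨φ.symm (Pi.mulSingle j y), ?_⟩
      show φ (φ.symm (Pi.mulSingle j y)) j = y
      rw [φ.apply_symm_apply, Pi.mulSingle_eq_same]
    let A : Subgroup (G j) := (f.comp (MonoidHom.mulSingle G i)).range
    let B : Subgroup (G j) := (Pi.evalMonoidHom G i).ker.map f
    have hcomm : ∀ a ∈ A, ∀ b ∈ B, a * b = b * a := by
      rintro _ ⟨x, rfl⟩ _ ⟨z, hz, rfl⟩
      have hz1 : z i = 1 := hz
      show f (Pi.mulSingle i x) * f z = f z * f (Pi.mulSingle i x)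
      rw [← map_mul, ← map_mul]
      congr 1
      funext k
      by_cases hk : k = i
      · subst hk
        simp [hz1]
      · simp [hk]
    have hgen : A ⊔ B = ⊤ := by
      rw [eq_top_iff]
      rintro y -
      obtain ⟨z, rfl⟩ := hf y
      obtain ⟨z', h1, h2⟩ := split i z
      rw [h2, map_mul]
      exact Subgroup.mul_mem_sup ⟨z i, rfl⟩ ⟨z', h1, rfl⟩
    rcases (hI j).2 A B hcomm hgen (inf_bot (hZ j) A B hcomm hgen) with h | h
    · exfalso
      apply hx
      have : f (Pi.mulSingle i x) ∈ A := ⟨x, rfl⟩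
      rw [h] at this
      exact this
    · intro z hz
      have : f z ∈ B := ⟨z, hz, rfl⟩
      rw [h] at this
      exact this
  choose τ hτ using key
  exact ⟨τ, hτ⟩

theorem dep_unique (hI : ∀ i, DirIndec (G i)) {φ : MulAut (∀ i, G i)} {τ σ : ι → ι}
    (h1 : Dep φ τ) (h2 : Dep φ σ) : τ = σ := by
  funext j
  by_contra hne
  haveI := (hI j).1
  obtain ⟨i, x, hx⟩ := exists_mov φ j
  by_cases hi : i = τ j
  · apply hx
    apply h2 j
    rw [Pi.mulSingle_eq_of_ne]
    rw [hi]
    exact fun h => hne h.symm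
  · apply hx
    apply h1 j
    rw [Pi.mulSingle_eq_of_ne]
    exact fun h => hi h.symm

variable (hZ : ∀ i, Subgroup.center (G i) = ⊥) (hI : ∀ i, DirIndec (G i))

/-- the permutation of the factors -/
noncomputable def tau (φ : MulAut (∀ i, G i)) : ι → ι := (dep_exists hZ hI φ).choose

theorem tau_spec (φ : MulAut (∀ i, G i)) : Dep φ (tau hZ hI φ) := (dep_exists hZ hI φ).choose_spec

theorem tau_mul (φ ψ : MulAut (∀ i, G i)) :
    tau hZ hI (φ * ψ) = tau hZ hI ψ ∘ tau hZ hI φ :=
  dep_unique hI (tau_spec hZ hI _) (dep_mul (tau_spec hZ hI φ) (tau_spec hZ hI ψ))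

theorem tau_one : tau hZ hI 1 = id := dep_unique hI (tau_spec hZ hI _) dep_one

/-- the action on the set of the factors -/
noncomputable def perm : MulAut (∀ i, G i) →* Equiv.Perm ι where
  toFun φ :=
    { toFun := tau hZ hI φ⁻¹
      invFun := tau hZ hI φ
      left_inv := fun j => by
        have := congrFun (tau_mul hZ hI φ⁻¹ φ) j
        rw [inv_mul_cancel, tau_one] at this
        exact this.symm
      right_inv := fun j => by
        have := congrFun (tau_mul hZ hI φ φ⁻¹) j
        rw [mul_inv_cancel, tau_one] at this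
        exact this.symm }
  map_one' := by
    apply Equiv.ext
    intro j
    show tau hZ hI 1⁻¹ j = j
    rw [inv_one, tau_one]
    rfl
  map_mul' φ ψ := by
    apply Equiv.ext
    intro j
    show tau hZ hI (φ * ψ)⁻¹ j = tau hZ hI φ⁻¹ (tau hZ hI ψ⁻¹ j)
    rw [mul_inv_rev, tau_mul]
    rfl

theorem ker_perm {φ : MulAut (∀ i, G i)} (h : φ ∈ (perm hZ hI).ker) : Dep φ id := by
  have h1 : perm hZ hI φ = 1 := h
  have h2 : (perm hZ hI φ).symm = 1 := by rw [h1]; rfl
  have h3 : tau hZ hI φ = id := by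
    funext j
    exact congrArg (fun e : Equiv.Perm ι => e j) h2
  rw [← h3]
  exact tau_spec hZ hI φ

theorem ker_perm_iff {φ : MulAut (∀ i, G i)} : φ ∈ (perm hZ hI).ker ↔ Dep φ id := by
  constructor
  · exact ker_perm hZ hI
  · intro h
    have h3 : tau hZ hI φ = id := dep_unique hI (tau_spec hZ hI φ) h
    have h1 : (perm hZ hI φ).symm = 1 := by
      apply Equiv.ext
      intro j
      exact congrFun h3 j
    show perm hZ hI φ = 1
    have h2 := congrArg Equiv.symm h1
    rw [Equiv.symm_symm] at h2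
    rw [h2]
    rfl

theorem single_apply {φ : MulAut (∀ i, G i)} (h : Dep φ id) (i : ι) (x : G i) :
    φ (Pi.mulSingle i x) = Pi.mulSingle i (φ (Pi.mulSingle i x) i) := by
  funext j
  by_cases hj : j = i
  · subst hj
    rw [Pi.mulSingle_eq_same]
  · rw [Pi.mulSingle_eq_of_ne hj]
    apply h j
    exact Pi.mulSingle_eq_of_ne hj x

/-- the components -/
noncomputable def comp (i : ι) : ↥(perm hZ hI).ker →* MulAut (G i) where
  toFun φ :=
    { toFun := fun x => φ.1 (Pi.mulSingle i x) i
      invFun := fun x => (φ⁻¹).1 (Pi.mulSingle i x) i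
      left_inv := fun x => by
        show (φ⁻¹).1 (Pi.mulSingle i (φ.1 (Pi.mulSingle i x) i)) i = x
        rw [← single_apply (ker_perm hZ hI φ.2)]
        show (φ.1⁻¹ * φ.1) (Pi.mulSingle i x) i = x
        rw [inv_mul_cancel]
        exact Pi.mulSingle_eq_same i x
      right_inv := fun x => by
        show φ.1 (Pi.mulSingle i ((φ⁻¹).1 (Pi.mulSingle i x) i)) i = x
        rw [← single_apply (ker_perm hZ hI (φ⁻¹).2)]
        show (φ.1 * φ.1⁻¹) (Pi.mulSingle i x) i = x
        rw [mul_inv_cancel]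
        exact Pi.mulSingle_eq_same i x
      map_mul' := fun x y => by
        rw [Pi.mulSingle_mul, map_mul, Pi.mul_apply] }
  map_one' := by
    apply MulEquiv.ext
    intro x
    exact Pi.mulSingle_eq_same i x
  map_mul' φ ψ := by
    apply MulEquiv.ext
    intro x
    show φ.1 (ψ.1 (Pi.mulSingle i x)) i = φ.1 (Pi.mulSingle i (ψ.1 (Pi.mulSingle i x) i)) i
    rw [← single_apply (ker_perm hZ hI ψ.2)]

theorem comp_apply (i : ι) (φ : ↥(perm hZ hI).ker) (z : ∀ i, G i) :
    φ.1 z i = comp hZ hI i φ (z i) :=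
  dep_apply (ker_perm hZ hI φ.2) i z

/-- the embedding of the product of the automorphism groups -/
def upP : (∀ i, MulAut (G i)) →* MulAut (∀ i, G i) where
  toFun f := MulEquiv.piCongrRight f
  map_one' := rfl
  map_mul' _ _ := rfl

theorem upP_inj : Function.Injective (upP (G := G)) := by
  intro f g h
  funext i
  apply MulEquiv.ext
  intro x
  have := congrArg (fun φ : MulAut (∀ i, G i) => φ (Pi.mulSingle i x) i) h
  have h2 : f i (Pi.mulSingle (M := G) i x i) = g i (Pi.mulSingle (M := G) i x i) := this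
  rwa [Pi.mulSingle_eq_same] at h2

/-- the embedding of the automorphism group of a factor -/
def up1 (i : ι) : MulAut (G i) →* MulAut (∀ i, G i) :=
  upP.comp (MonoidHom.mulSingle (fun i => MulAut (G i)) i)

theorem up1_inj (i : ι) : Function.Injective (up1 (G := G) i) :=
  fun _ _ h => Pi.mulSingle_injective (M := fun i => MulAut (G i)) i (upP_inj h)

theorem up1_apply (i : ι) (φ : MulAut (G i)) (z : ∀ i, G i) : up1 i φ z i = φ (z i) := by
  show (Pi.mulSingle (M := fun i => MulAut (G i)) i φ) i (z i) = φ (z i)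
  rw [Pi.mulSingle_eq_same]

theorem up1_apply_ne (i j : ι) (hj : j ≠ i) (φ : MulAut (G i)) (z : ∀ i, G i) :
    up1 i φ z j = z j := by
  show (Pi.mulSingle (M := fun i => MulAut (G i)) i φ) j (z j) = z j
  rw [Pi.mulSingle_eq_of_ne hj]
  rfl

include hZ hI in
/-- **automorphism groups of direct products** -/
theorem c_autP (hC : ClosedE C) :
    C (MulAut (∀ i, G i)) ↔ ∀ i, C (MulAut (G i)) := by
  constructor
  · intro h i
    exact hC.base.of_injective _ _ (up1 i) (up1_inj i) h
  · intro h
    refine hC.base.finiteIndex _ (perm hZ hI).ker ?_ ?_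
    · exact Subgroup.finiteIndex_ker _
    · refine hC.base.of_injective _ (∀ i, MulAut (G i)) (MonoidHom.pi fun i => comp hZ hI i) ?_
        (c_pi hC _ h)
      rw [injective_iff_map_eq_one]
      intro φ hφ
      apply Subtype.ext
      apply MulEquiv.ext
      intro z
      funext i
      rw [comp_apply]
      have := congrFun hφ i
      have h2 : comp hZ hI i φ = 1 := this
      rw [h2]
      rfl

theorem conj_mem_ker (g : ∀ i, G i) : MulAut.conj g ∈ (perm hZ hI).ker := by
  rw [ker_perm_iff]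
  intro j z hz
  have hz1 : z j = 1 := hz
  show g j * z j * (g j)⁻¹ = 1
  rw [hz1, mul_one, mul_inv_cancel]

/-- the outer components -/
noncomputable def rho : ↥(perm hZ hI).ker →* (∀ i, OutA (G i)) :=
  MonoidHom.pi fun i => (QuotientGroup.mk' (Inn (G i))).comp (comp hZ hI i)

theorem rho_ker {φ : ↥(perm hZ hI).ker} (h : rho hZ hI φ = 1) : φ.1 ∈ Inn (∀ i, G i) := by
  have h1 : ∀ i, ∃ g : G i, MulAut.conj g = comp hZ hI i φ := by
    intro i
    have h2 : QuotientGroup.mk' (Inn (G i)) (comp hZ hI i φ) = 1 := congrFun h i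
    exact (QuotientGroup.eq_one_iff _).1 h2
  choose g hg using h1
  refine ⟨g, ?_⟩
  apply MulEquiv.ext
  intro z
  funext i
  rw [comp_apply, ← hg i]
  rfl

include hZ hI in
/-- **outer automorphism groups of direct products** -/
theorem c_outP (hC : ClosedE C) :
    C (OutA (∀ i, G i)) ↔ ∀ i, C (OutA (G i)) := by
  constructor
  · intro h i
    refine hC.base.of_injective _ _ (QuotientGroup.map (Inn (G i)) (Inn (∀ i, G i)) (up1 i) ?_) ?_ h
    · rintro _ ⟨g, rfl⟩
      refine ⟨Pi.mulSingle i g, ?_⟩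
      apply MulEquiv.ext
      intro z
      funext j
      show Pi.mulSingle i g j * z j * (Pi.mulSingle (M := G) i g j)⁻¹ = _
      by_cases hj : j = i
      · subst hj
        rw [up1_apply, Pi.mulSingle_eq_same]
        rfl
      · rw [up1_apply_ne i j hj, Pi.mulSingle_eq_of_ne hj, one_mul, inv_one, mul_one]
    · rw [injective_iff_map_eq_one]
      intro q hq
      obtain ⟨φ, rfl⟩ := QuotientGroup.mk_surjective q
      have h1 : up1 i φ ∈ Inn (∀ i, G i) := (QuotientGroup.eq_one_iff _).1 hq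
      obtain ⟨z, hz⟩ := h1
      apply (QuotientGroup.eq_one_iff _).2
      refine ⟨z i, ?_⟩
      apply MulEquiv.ext
      intro x
      have h2 := congrArg (fun f : MulAut (∀ i, G i) => f (Pi.mulSingle i x) i) hz
      have h3 : z i * Pi.mulSingle (M := G) i x i * (z i)⁻¹ = up1 i φ (Pi.mulSingle i x) i := h2
      rw [up1_apply, Pi.mulSingle_eq_same] at h3
      exact h3
  · intro h
    let α : ↥(perm hZ hI).ker →* OutA (∀ i, G i) :=
      (QuotientGroup.mk' (Inn (∀ i, G i))).comp (perm hZ hI).ker.subtype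
    refine hC.base.finiteIndex _ α.range ?_ ?_
    · have h1 : α.range = (perm hZ hI).ker.map (QuotientGroup.mk' (Inn (∀ i, G i))) := by
        rw [MonoidHom.range_comp, Subgroup.range_subtype]
      rw [h1]
      haveI : (perm hZ hI).ker.FiniteIndex := Subgroup.finiteIndex_ker _
      constructor
      intro h0
      have h2 := Subgroup.index_map_dvd (H := (perm hZ hI).ker)
        (QuotientGroup.mk'_surjective (Inn (∀ i, G i)))
      rw [h0] at h2
      exact Subgroup.FiniteIndex.index_ne_zero (Nat.eq_zero_of_zero_dvd h2)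
    · have hker : ∀ φ : ↥(perm hZ hI).ker, φ ∈ α.ker → rho hZ hI φ = 1 := by
        intro φ hφ
        have h1 : φ.1 ∈ Inn (∀ i, G i) := (QuotientGroup.eq_one_iff _).1 hφ
        obtain ⟨g, hg⟩ := h1
        funext i
        apply (QuotientGroup.eq_one_iff _).2
        refine ⟨g i, ?_⟩
        apply MulEquiv.ext
        intro x
        have h2 := comp_apply hZ hI i φ (Pi.mulSingle i x)
        rw [← hg, Pi.mulSingle_eq_same] at h2
        rw [← h2]
        show g i * x * (g i)⁻¹ = g i * Pi.mulSingle (M := G) i x i * (g i)⁻¹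
        rw [Pi.mulSingle_eq_same]
      let β : (↥(perm hZ hI).ker ⧸ α.ker) →* (∀ i, OutA (G i)) :=
        QuotientGroup.lift α.ker (rho hZ hI) hker
      have hβ : Function.Injective β := by
        rw [injective_iff_map_eq_one]
        intro q hq
        obtain ⟨φ, rfl⟩ := QuotientGroup.mk_surjective q
        apply (QuotientGroup.eq_one_iff _).2
        exact (QuotientGroup.eq_one_iff _).2 (rho_ker hZ hI hq)
      have hc : C (↥(perm hZ hI).ker ⧸ α.ker) :=
        hC.base.of_injective _ _ β hβ (c_pi hC _ h)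
      exact c_equiv hC (QuotientGroup.quotientKerEquivRange α).symm hc

end prod

end Pool.Agent.X265.Au
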